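import Mathlib

/-!
Reduction theory of `GL_n(ℤ)`, part 1: the Siegel finiteness property in coordinates.
-/

namespace Reduction

open Matrix Finset

/-- `L` is lower unitriangular with entries bounded by one, `d` is positive and does not
decrease too fast. -/
structure IsRedData {n : ℕ} (L : Matrix (Fin n) (Fin n) ℝ) (d : Fin n → ℝ) : Prop where
  one : ∀ i, L i i = 1
  low : ∀ i j, i < j → L i j = 0
  le_one : ∀ i j, |L i j| ≤ 1
  pos : ∀ i, 0 < d i
  slow : ∀ i j, i ≤ j → d i ≤ 2 ^ n * d j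

variable {n : ℕ}

lemma IsRedData.det {L : Matrix (Fin n) (Fin n) ℝ} {d : Fin n → ℝ} (h : IsRedData L d) :
    L.det = 1 := by
  rw [Matrix.det_of_isLowerTriangular L (fun i j hij => h.low i j hij)]
  simp [h.one]

lemma IsRedData.inv_bound {L : Matrix (Fin n) (Fin n) ℝ} {d : Fin n → ℝ} (h : IsRedData L d)
    (i j : Fin n) : |(L⁻¹) i j| ≤ (n.factorial : ℝ) := by
  rw [Matrix.inv_def, h.det]
  simp only [Ring.inverse_one, one_smul, Matrix.adjugate_apply]
  have := Matrix.det_le (A := L.updateRow j (Pi.single i 1)) (abv := AbsoluteValue.abs)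
    (x := (1 : ℝ)) (by
      intro a b
      by_cases hab : a = j
      · subst hab
        simp only [Matrix.updateRow_self, AbsoluteValue.abs_apply]
        by_cases hb : b = i
        · subst hb; simp
        · simp [hb]
      · rw [Matrix.updateRow_ne hab]
        simpa using h.le_one a b)
  simpa using this

/-- The max index of a nonzero entry in a row. -/
lemma exists_max_index {x : Fin n → ℝ} (i : Fin n) (hi : x i ≠ 0) :
    ∃ j, i ≤ j ∧ x j ≠ 0 ∧ ∀ k, j < k → x k = 0 := by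
  classical
  obtain ⟨j, hj, hmax⟩ := (Finset.univ.filter (fun k => x k ≠ 0)).exists_maximal
    ⟨i, by simp [hi]⟩
  simp only [Finset.mem_filter, Finset.mem_univ, true_and] at hj hmax
  refine ⟨j, ?_, hj, ?_⟩
  · by_contra hlt
    push Not at hlt
    have := hmax hi hlt.le
    exact absurd this (not_le.mpr hlt)
  · intro k hk
    by_contra hne
    have := hmax hne hk.le
    exact absurd this (not_le.mpr hk)

lemma diag_conj_apply (M : Matrix (Fin n) (Fin n) ℝ) (d : Fin n → ℝ) (i : Fin n) :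
    (M * diagonal d * Mᵀ) i i = ∑ j, M i j ^ 2 * d j := by
  rw [Matrix.mul_apply]
  refine Finset.sum_congr rfl fun j _ => ?_
  rw [Matrix.mul_diagonal, Matrix.transpose_apply]
  ring

lemma IsRedData.row_bound {L : Matrix (Fin n) (Fin n) ℝ} {d : Fin n → ℝ} (h : IsRedData L d)
    (i : Fin n) : ∑ j, L i j ^ 2 * d j ≤ (n * 2 ^ n) * d i := by
  have h1 : ∀ j ∈ (Finset.univ : Finset (Fin n)), L i j ^ 2 * d j ≤ 2 ^ n * d i := by
    intro j _
    rcases lt_or_ge i j with hij | hij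
    · rw [h.low i j hij]
      have := (h.pos i).le
      simp only [ne_eq, OfNat.ofNat_ne_zero, not_false_eq_true, zero_pow, zero_mul]
      positivity
    · have h2 : L i j ^ 2 ≤ 1 := by
        rw [sq_le_one_iff_abs_le_one]
        exact h.le_one i j
      calc L i j ^ 2 * d j ≤ 1 * d j := by
            have := (h.pos j).le
            gcongr
        _ ≤ 2 ^ n * d i := by rw [one_mul]; exact h.slow j i hij
  calc ∑ j, L i j ^ 2 * d j ≤ ∑ _j : Fin n, 2 ^ n * d i := Finset.sum_le_sum h1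
    _ = (n * 2 ^ n) * d i := by simp; ring

/-- data for two reduced forms related by an integral change of basis -/
structure Pair (L L' : Matrix (Fin n) (Fin n) ℝ) (d d' : Fin n → ℝ)
    (γ δ : Matrix (Fin n) (Fin n) ℤ) : Prop where
  red : IsRedData L d
  red' : IsRedData L' d'
  mul : γ * δ = 1
  mul' : δ * γ = 1
  eq : (γ.map (Int.cast : ℤ → ℝ) * L) * diagonal d * (γ.map (Int.cast : ℤ → ℝ) * L)ᵀ
    = L' * diagonal d' * L'ᵀ

variable {L L' : Matrix (Fin n) (Fin n) ℝ} {d d' : Fin n → ℝ} {γ δ : Matrix (Fin n) (Fin n) ℤ}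

lemma map_mul_cast (a b : Matrix (Fin n) (Fin n) ℤ) :
    (a * b).map (Int.cast : ℤ → ℝ) = a.map (Int.cast : ℤ → ℝ) * b.map (Int.cast : ℤ → ℝ) := by
  exact Matrix.map_mul (f := Int.castRingHom ℝ)

lemma map_one_cast : (1 : Matrix (Fin n) (Fin n) ℤ).map (Int.cast : ℤ → ℝ) = 1 := by
  exact Matrix.map_one (Int.castRingHom ℝ) (by simp) (by simp)

lemma Pair.swap (h : Pair L L' d d' γ δ) : Pair L' L d' d δ γ where
  red := h.red'
  red' := h.red
  mul := h.mul'
  mul' := h.mul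
  eq := by
    have e := h.eq
    rw [Matrix.transpose_mul] at e
    have hdg : δ.map (Int.cast : ℤ → ℝ) * γ.map (Int.cast : ℤ → ℝ) = 1 := by
      rw [← map_mul_cast, h.mul', map_one_cast]
    have hdg' : (γ.map (Int.cast : ℤ → ℝ))ᵀ * (δ.map (Int.cast : ℤ → ℝ))ᵀ = 1 := by
      rw [← Matrix.transpose_mul, hdg, Matrix.transpose_one]
    calc (δ.map (Int.cast : ℤ → ℝ) * L') * diagonal d' * (δ.map (Int.cast : ℤ → ℝ) * L')ᵀ
        = δ.map (Int.cast : ℤ → ℝ) * (L' * diagonal d' * L'ᵀ) * (δ.map (Int.cast : ℤ → ℝ))ᵀ := by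
          rw [Matrix.transpose_mul]; simp only [Matrix.mul_assoc]
      _ = (δ.map (Int.cast : ℤ → ℝ) * γ.map (Int.cast : ℤ → ℝ)) * (L * diagonal d * Lᵀ) *
            ((γ.map (Int.cast : ℤ → ℝ))ᵀ * (δ.map (Int.cast : ℤ → ℝ))ᵀ) := by
          rw [← e]; simp only [Matrix.mul_assoc]
      _ = L * diagonal d * Lᵀ := by rw [hdg, hdg']; simp

lemma Pair.entry_bound (h : Pair L L' d d' γ δ) (i j : Fin n) :
    ((γ.map (Int.cast : ℤ → ℝ) * L) i j) ^ 2 * d j ≤ (n * 2 ^ n) * d' i := by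
  have h1 := diag_conj_apply (γ.map (Int.cast : ℤ → ℝ) * L) d i
  rw [h.eq, diag_conj_apply] at h1
  calc ((γ.map (Int.cast : ℤ → ℝ) * L) i j) ^ 2 * d j
      ≤ ∑ j, ((γ.map (Int.cast : ℤ → ℝ) * L) i j) ^ 2 * d j :=
        Finset.single_le_sum (f := fun j => ((γ.map (Int.cast : ℤ → ℝ) * L) i j) ^ 2 * d j)
          (fun k _ => by have := (h.red.pos k).le; positivity) (Finset.mem_univ j)
    _ = ∑ j, L' i j ^ 2 * d' j := h1.symm
    _ ≤ _ := h.red'.row_bound i

lemma Pair.top_bound (h : Pair L L' d d' γ δ) (i j : Fin n) (hne : γ i j ≠ 0)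
    (hz : ∀ k, j < k → γ i k = 0) : d j ≤ (n * 2 ^ n) * d' i := by
  have h1 : (γ.map (Int.cast : ℤ → ℝ) * L) i j = (γ i j : ℝ) := by
    rw [Matrix.mul_apply, Finset.sum_eq_single j]
    · rw [h.red.one, mul_one]; rfl
    · intro k _ hk
      rcases lt_or_gt_of_ne hk with hk | hk
      · rw [h.red.low k j hk, mul_zero]
      · simp [hz k hk]
    · simp
  have h2 := h.entry_bound i j
  rw [h1] at h2
  have h3 : (1 : ℝ) ≤ (γ i j : ℝ) ^ 2 := by
    have : 1 ≤ (γ i j) ^ 2 := by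
      have := sq_pos_of_ne_zero hne
      omega
    exact_mod_cast this
  have h4 := (h.red.pos j).le
  nlinarith

lemma Pair.exists_ne (h : Pair L L' d d' γ δ) (i : Fin n) :
    ∃ k j, k ≤ i ∧ i ≤ j ∧ γ k j ≠ 0 := by
  classical
  by_contra hcon
  push Not at hcon
  -- the identity of size `i+1` factors through size `i`
  let A : Matrix {k : Fin n // k ≤ i} {j : Fin n // j < i} ℝ := fun k j => (γ k.1 j.1 : ℝ)
  let B : Matrix {j : Fin n // j < i} {k : Fin n // k ≤ i} ℝ := fun j k => (δ j.1 k.1 : ℝ)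
  have hAB : A * B = 1 := by
    ext k l
    have h1 : (γ * δ) k.1 l.1 = (1 : Matrix (Fin n) (Fin n) ℤ) k.1 l.1 := by rw [h.mul]
    rw [Matrix.mul_apply] at h1
    have h2 : ∑ j, γ k.1 j * δ j l.1 = ∑ j : {j : Fin n // j < i}, γ k.1 j.1 * δ j.1 l.1 := by
      rw [← Finset.sum_subtype (Finset.univ.filter (fun j : Fin n => j < i)) (p := fun j => j < i)
        (by simp) (fun j => γ k.1 j * δ j l.1)]
      refine (Finset.sum_subset (Finset.filter_subset _ _) ?_).symm
      intro j _ hj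
      simp only [Finset.mem_filter, Finset.mem_univ, true_and, not_lt] at hj
      rw [hcon k.1 j k.2 hj, zero_mul]
    rw [h2] at h1
    rw [Matrix.mul_apply]
    have h3 : ((∑ j : {j : Fin n // j < i}, γ k.1 j.1 * δ j.1 l.1 : ℤ) : ℝ)
        = (((1 : Matrix (Fin n) (Fin n) ℤ) k.1 l.1 : ℤ) : ℝ) := by rw [h1]
    push_cast at h3
    rw [show (∑ j, A k j * B j l) = ∑ j : {j : Fin n // j < i}, (γ k.1 j.1 : ℝ) * (δ j.1 l.1 : ℝ)
      from rfl, h3]
    by_cases hkl : k = l
    · subst hkl; simp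
    · have hkl' : k.1 ≠ l.1 := fun hh => hkl (Subtype.ext hh)
      simp [Matrix.one_apply_ne hkl, Matrix.one_apply_ne hkl']
  have h1 : (1 : Matrix {k : Fin n // k ≤ i} {k : Fin n // k ≤ i} ℝ).rank
      ≤ Fintype.card {j : Fin n // j < i} := by
    rw [← hAB]
    exact (Matrix.rank_mul_le_left A B).trans (Matrix.rank_le_card_width A)
  rw [Matrix.rank_one] at h1
  have e1 : Fintype.card {k : Fin n // k ≤ i} = i + 1 := by
    rw [Fintype.card_subtype]
    have : (Finset.univ.filter (fun k : Fin n => k ≤ i)) = Finset.Iic i := by ext; simp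
    rw [this]; simp
  have e2 : Fintype.card {k : Fin n // k < i} = i := by
    rw [Fintype.card_subtype]
    have : (Finset.univ.filter (fun k : Fin n => k < i)) = Finset.Iio i := by ext; simp
    rw [this]; simp
  omega

/-- the comparison constant -/
noncomputable def K2 (n : ℕ) : ℝ := (n * 2 ^ n) * 2 ^ n * 2 ^ n

lemma Pair.comp (h : Pair L L' d d' γ δ) (i : Fin n) : d i ≤ K2 n * d' i := by
  obtain ⟨k, j0, hki, hij0, hne⟩ := h.exists_ne i
  obtain ⟨j, hj0j, hj, hz⟩ := exists_max_index (x := fun j => (γ k j : ℝ)) j0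
    (by exact_mod_cast hne)
  have h1 := h.top_bound k j (by exact_mod_cast hj) (fun l hl => by exact_mod_cast hz l hl)
  have h2 := h.red.slow i j (hij0.trans hj0j)
  have h3 := h.red'.slow k i hki
  have h4 : (0 : ℝ) < 2 ^ n := by positivity
  calc d i ≤ 2 ^ n * d j := h2
    _ ≤ 2 ^ n * ((n * 2 ^ n) * d' k) := by gcongr
    _ ≤ 2 ^ n * ((n * 2 ^ n) * (2 ^ n * d' i)) := by gcongr
    _ = K2 n * d' i := by unfold K2; ring

lemma Pair.vanish (h : Pair L L' d d' γ δ) (i k0 : Fin n)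
    (hgap : ∀ j, k0 < j → (n * 2 ^ n) * d i < d' j) (j : Fin n) (hj : k0 < j) : δ i j = 0 := by
  by_contra hne
  obtain ⟨j', hjj', hj', hz⟩ := exists_max_index (x := fun j => (δ i j : ℝ)) j
    (by exact_mod_cast hne)
  have h1 := h.swap.top_bound i j' (by exact_mod_cast hj') (fun l hl => by exact_mod_cast hz l hl)
  have h2 := hgap j' (hj.trans_le hjj')
  linarith

lemma Pair.K2_one_le (_h : Pair L L' d d' γ δ) (i : Fin n) : 1 ≤ K2 n := by
  have hn : 1 ≤ n := by have := i.2; omega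
  have h1 : (1 : ℝ) ≤ n := by exact_mod_cast hn
  have h2 : (1 : ℝ) ≤ 2 ^ n := one_le_pow₀ (by norm_num)
  unfold K2
  calc (1 : ℝ) = (1 * 1) * 1 * 1 := by norm_num
    _ ≤ (n * 2 ^ n) * 2 ^ n * 2 ^ n := by gcongr

/-- the transition matrix between the two Gram-Schmidt frames -/
noncomputable def NN (L L' : Matrix (Fin n) (Fin n) ℝ) (γ : Matrix (Fin n) (Fin n) ℤ) :
    Matrix (Fin n) (Fin n) ℝ := L'⁻¹ * (γ.map (Int.cast : ℤ → ℝ) * L)

lemma IsRedData.mul_inv {L : Matrix (Fin n) (Fin n) ℝ} {d : Fin n → ℝ} (h : IsRedData L d) :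
    L * L⁻¹ = 1 := Matrix.mul_nonsing_inv L (by rw [h.det]; exact isUnit_one)

lemma IsRedData.inv_mul {L : Matrix (Fin n) (Fin n) ℝ} {d : Fin n → ℝ} (h : IsRedData L d) :
    L⁻¹ * L = 1 := Matrix.nonsing_inv_mul L (by rw [h.det]; exact isUnit_one)

lemma Pair.NN_diag (h : Pair L L' d d' γ δ) :
    NN L L' γ * diagonal d * (NN L L' γ)ᵀ = diagonal d' := by
  have e := h.eq
  unfold NN
  rw [Matrix.transpose_mul]
  have i1 := h.red'.inv_mul
  have i2 : L'ᵀ * (L'⁻¹)ᵀ = 1 := by rw [← Matrix.transpose_mul, i1, Matrix.transpose_one]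
  calc L'⁻¹ * (γ.map (Int.cast : ℤ → ℝ) * L) * diagonal d *
        ((γ.map (Int.cast : ℤ → ℝ) * L)ᵀ * L'⁻¹ᵀ)
      = L'⁻¹ * ((γ.map (Int.cast : ℤ → ℝ) * L) * diagonal d *
        (γ.map (Int.cast : ℤ → ℝ) * L)ᵀ) * L'⁻¹ᵀ := by simp only [Matrix.mul_assoc]
    _ = (L'⁻¹ * L') * diagonal d' * (L'ᵀ * L'⁻¹ᵀ) := by rw [e]; simp only [Matrix.mul_assoc]
    _ = diagonal d' := by rw [i1, i2]; simp

lemma Pair.NN_mul (h : Pair L L' d d' γ δ) : NN L L' γ * NN L' L δ = 1 := by
  unfold NN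
  have hgd : γ.map (Int.cast : ℤ → ℝ) * δ.map (Int.cast : ℤ → ℝ) = 1 := by
    rw [← map_mul_cast, h.mul, map_one_cast]
  calc L'⁻¹ * (γ.map (Int.cast : ℤ → ℝ) * L) * (L⁻¹ * (δ.map (Int.cast : ℤ → ℝ) * L'))
      = L'⁻¹ * (γ.map (Int.cast : ℤ → ℝ) * (L * L⁻¹) * δ.map (Int.cast : ℤ → ℝ)) * L' := by
        simp only [Matrix.mul_assoc]
    _ = 1 := by rw [h.red.mul_inv, Matrix.mul_one, hgd, Matrix.mul_one, h.red'.inv_mul]

lemma Pair.NN_inv (h : Pair L L' d d' γ δ) (i j : Fin n) :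
    NN L' L δ i j * d' j = d i * NN L L' γ j i := by
  -- `P = D Nᵀ D'⁻¹`
  have h1 := h.NN_mul
  have h2 := h.swap.NN_mul
  have h3 := h.NN_diag
  have h4 : diagonal d * (NN L L' γ)ᵀ = NN L' L δ * diagonal d' := by
    calc diagonal d * (NN L L' γ)ᵀ
        = (NN L' L δ * NN L L' γ) * (diagonal d * (NN L L' γ)ᵀ) := by rw [h2, Matrix.one_mul]
      _ = NN L' L δ * (NN L L' γ * diagonal d * (NN L L' γ)ᵀ) := by
          simp only [Matrix.mul_assoc]
      _ = NN L' L δ * diagonal d' := by rw [h3]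
  have h5 := congrFun (congrFun h4 i) j
  rw [Matrix.mul_diagonal, Matrix.diagonal_mul, Matrix.transpose_apply] at h5
  exact h5.symm

lemma Pair.NN_vanish (h : Pair L L' d d' γ δ) (k0 : Fin n)
    (hgap : ∀ i, i ≤ k0 → ∀ j, k0 < j → (n * 2 ^ n) * d i < d' j)
    (a : Fin n) (ha : k0 < a) : ∀ m : ℕ, ∀ b : Fin n, b.1 = m → b ≤ k0 → NN L' L δ b a = 0 := by
  intro m
  induction m using Nat.strong_induction_on with
  | _ m ih =>
    intro b hbm hb
    have h1 : L * NN L' L δ = δ.map (Int.cast : ℤ → ℝ) * L' := by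
      unfold NN
      rw [← Matrix.mul_assoc, h.red.mul_inv, Matrix.one_mul]
    have h2 := congrFun (congrFun h1 b) a
    rw [Matrix.mul_apply, Matrix.mul_apply] at h2
    have h3 : ∑ j, (δ.map (Int.cast : ℤ → ℝ)) b j * L' j a = 0 := by
      refine Finset.sum_eq_zero fun j _ => ?_
      rcases lt_or_ge k0 j with hj | hj
      · rw [Matrix.map_apply, h.vanish b k0 (hgap b hb) j hj]; simp
      · rw [h.red'.low j a (lt_of_le_of_lt hj ha), mul_zero]
    rw [h3, Finset.sum_eq_single b] at h2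
    · rwa [h.red.one, one_mul] at h2
    · intro i _ hi
      rcases lt_or_gt_of_ne hi with hi | hi
      · rw [ih i.1 (by rw [← hbm]; exact hi) i rfl (hi.le.trans hb), mul_zero]
      · rw [h.red.low b i hi, zero_mul]
    · simp

lemma Pair.NN_sq (h : Pair L L' d d' γ δ) (a b : Fin n) : NN L L' γ a b ^ 2 * d b ≤ d' a := by
  have h1 := diag_conj_apply (NN L L' γ) d a
  rw [h.NN_diag, Matrix.diagonal_apply_eq] at h1
  rw [h1]
  exact Finset.single_le_sum (f := fun j => NN L L' γ a j ^ 2 * d j)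
    (fun k _ => by have := (h.red.pos k).le; positivity) (Finset.mem_univ b)

/-- without gaps the diagonal grows slowly -/
lemma Pair.no_gap (h : Pair L L' d d' γ δ) (b : Fin n) : ∀ m : ℕ, ∀ a : Fin n, a.1 = b.1 + m →
    (∀ k0 : Fin n, b ≤ k0 → k0 < a → ∃ i, i ≤ k0 ∧ ∃ j, k0 < j ∧ d' j ≤ (n * 2 ^ n) * d i) →
    d' a ≤ (K2 n * K2 n) ^ m * d' b := by
  intro m
  induction m with
  | zero =>
    intro a hab _
    have : a = b := Fin.ext (by simpa using hab)
    subst this; simp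
  | succ m ih =>
    intro a hab hng
    have hlt : b.1 + m < n := by have := a.2; omega
    let k0 : Fin n := ⟨b.1 + m, hlt⟩
    have hbk : b ≤ k0 := by show b.1 ≤ b.1 + m; omega
    have hka : k0 < a := by show b.1 + m < a.1; omega
    have h1 := ih k0 rfl (fun k hk hk' => hng k hk (hk'.trans hka))
    obtain ⟨i, hi, j, hj, hij⟩ := hng k0 hbk hka
    have haj : a ≤ j := by
      have : b.1 + m < j.1 := hj
      show a.1 ≤ j.1; omega
    have h2 := h.red'.slow a j haj
    have h3 := h.red.slow i k0 hi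
    have h4 := h.comp k0
    have hK := h.K2_one_le b
    have hp : (0 : ℝ) < 2 ^ n := by positivity
    calc d' a ≤ 2 ^ n * d' j := h2
      _ ≤ 2 ^ n * ((n * 2 ^ n) * d i) := by gcongr
      _ ≤ 2 ^ n * ((n * 2 ^ n) * (2 ^ n * d k0)) := by gcongr
      _ = K2 n * d k0 := by unfold K2; ring
      _ ≤ K2 n * (K2 n * d' k0) := by gcongr
      _ ≤ K2 n * (K2 n * ((K2 n * K2 n) ^ m * d' b)) := by gcongr
      _ = (K2 n * K2 n) ^ (m + 1) * d' b := by ring

lemma Pair.NN_bound (h : Pair L L' d d' γ δ) (a b : Fin n) :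
    NN L L' γ a b ^ 2 ≤ (K2 n * K2 n) ^ n * K2 n := by
  have hK := h.K2_one_le b
  have hKK : 1 ≤ K2 n * K2 n := by nlinarith
  have hdb := h.red.pos b
  have hsq := h.NN_sq a b
  have hcomp := h.swap.comp b
  have h2n : (2 : ℝ) ^ n ≤ (K2 n * K2 n) ^ n := by
    have hn : 1 ≤ n := by have := b.2; omega
    have : (2 : ℝ) ≤ K2 n * K2 n := by
      have h1 : (1 : ℝ) ≤ n := by exact_mod_cast hn
      have h2 : (2 : ℝ) ≤ 2 ^ n := by
        calc (2 : ℝ) = 2 ^ 1 := by norm_num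
          _ ≤ 2 ^ n := pow_le_pow_right₀ (by norm_num) hn
      have h3 : (2 : ℝ) ≤ K2 n := by
        unfold K2
        calc (2 : ℝ) = (1 * 1) * 1 * 2 := by norm_num
          _ ≤ (n * 2 ^ n) * 2 ^ n * 2 ^ n := by
              have : (1 : ℝ) ≤ 2 ^ n := by linarith
              gcongr
      nlinarith
    gcongr
  suffices hs : NN L L' γ a b = 0 ∨ d' a ≤ (K2 n * K2 n) ^ n * d' b by
    rcases hs with hs | hs
    · rw [hs, zero_pow two_ne_zero]; positivity
    · have h5 : NN L L' γ a b ^ 2 * d b ≤ ((K2 n * K2 n) ^ n * K2 n) * d b := by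
        calc NN L L' γ a b ^ 2 * d b ≤ d' a := hsq
          _ ≤ (K2 n * K2 n) ^ n * d' b := hs
          _ ≤ (K2 n * K2 n) ^ n * (K2 n * d b) := by gcongr
          _ = _ := by ring
      exact le_of_mul_le_mul_right h5 hdb
  rcases le_or_gt a b with hab | hab
  · right
    calc d' a ≤ 2 ^ n * d' b := h.red'.slow a b hab
      _ ≤ _ := by have := (h.red'.pos b).le; gcongr
  · by_cases hg : ∃ k0 : Fin n, b ≤ k0 ∧ k0 < a ∧
        ∀ i, i ≤ k0 → ∀ j, k0 < j → (n * 2 ^ n) * d i < d' j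
    · left
      obtain ⟨k0, hbk, hka, hgap⟩ := hg
      have h1 := h.NN_vanish k0 hgap a hka b.1 b rfl hbk
      have h2 := h.NN_inv b a
      rw [h1, zero_mul] at h2
      have h3 := h.red.pos b
      rcases mul_eq_zero.mp h2.symm with h4 | h4
      · exact absurd h4 h3.ne'
      · exact h4
    · right
      push Not at hg
      have h1 := h.no_gap b (a.1 - b.1) a (by have : b.1 < a.1 := hab; omega)
        (fun k0 hk hk' => hg k0 hk hk')
      calc d' a ≤ (K2 n * K2 n) ^ (a.1 - b.1) * d' b := h1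
        _ ≤ (K2 n * K2 n) ^ n * d' b := by
            have := (h.red'.pos b).le
            have h2 : a.1 - b.1 ≤ n := by have := a.2; omega
            gcongr

/-- **Siegel's finiteness property**, quantitative form. -/
theorem Pair.bound (h : Pair L L' d d' γ δ) (i j : Fin n) :
    |(γ i j : ℝ)| ≤ ∑ _b : Fin n, (∑ _a : Fin n, (1 : ℝ) * (1 + (K2 n * K2 n) ^ n * K2 n)) *
      (n.factorial : ℝ) := by
  have h1 : γ.map (Int.cast : ℤ → ℝ) = L' * NN L L' γ * L⁻¹ := by
    unfold NN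
    calc γ.map (Int.cast : ℤ → ℝ) = (L' * L'⁻¹) * γ.map (Int.cast : ℤ → ℝ) * (L * L⁻¹) := by
          rw [h.red.mul_inv, h.red'.mul_inv]; simp
      _ = _ := by simp only [Matrix.mul_assoc]
  have h2 : (γ i j : ℝ) = (L' * NN L L' γ * L⁻¹) i j := by rw [← h1]; rfl
  rw [h2, Matrix.mul_apply]
  refine (Finset.abs_sum_le_sum_abs _ _).trans ?_
  refine Finset.sum_le_sum fun b _ => ?_
  rw [abs_mul, Matrix.mul_apply]
  refine mul_le_mul ?_ (h.red.inv_bound b j) (abs_nonneg _) ?_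
  · refine (Finset.abs_sum_le_sum_abs _ _).trans ?_
    refine Finset.sum_le_sum fun a _ => ?_
    rw [abs_mul]
    refine mul_le_mul (h.red'.le_one i a) ?_ (abs_nonneg _) zero_le_one
    have h3 := h.NN_bound a b
    have h4 : 0 ≤ (|NN L L' γ a b| - 1) ^ 2 := sq_nonneg _
    have h5 : |NN L L' γ a b| ^ 2 = NN L L' γ a b ^ 2 := sq_abs _
    have h6 := abs_nonneg (NN L L' γ a b)
    nlinarith
  · have hK := h.K2_one_le b
    have h0 : (0 : ℝ) ≤ 1 * (1 + (K2 n * K2 n) ^ n * K2 n) := by positivity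
    exact Finset.sum_nonneg fun _ _ => h0

end Reduction
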