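import Mathlib
import Pool.Agent.Lib_helper97.Red.Bound

/-!
Reduction theory of `GL_n(ℤ)`, part 2: reduced forms.
-/

namespace Reduction

open Matrix Finset

/-- positive definite symmetric real matrices -/
structure PD {n : ℕ} (Q : Matrix (Fin n) (Fin n) ℝ) : Prop where
  symm : ∀ i j, Q i j = Q j i
  pos : ∀ x : Fin n → ℝ, x ≠ 0 → 0 < x ⬝ᵥ (Q *ᵥ x)

/-- Schur complement of the `(0,0)` entry -/
noncomputable def schur {n : ℕ} (Q : Matrix (Fin (n + 1)) (Fin (n + 1)) ℝ) :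
    Matrix (Fin n) (Fin n) ℝ :=
  fun i j => Q i.succ j.succ - Q i.succ 0 * Q 0 j.succ / Q 0 0

/-- strictly reduced forms -/
def Red : ∀ n : ℕ, Matrix (Fin n) (Fin n) ℝ → Prop
  | 0, _ => True
  | n + 1, Q => 0 < Q 0 0 ∧ (∀ i : Fin n, |Q i.succ 0| < Q 0 0) ∧
      (∀ h : 0 < n, Q 0 0 < 2 * schur Q ⟨0, h⟩ ⟨0, h⟩) ∧ Red n (schur Q)

/-- the action of an integral matrix on forms -/
noncomputable def act {n : ℕ} (U : Matrix (Fin n) (Fin n) ℤ) (Q : Matrix (Fin n) (Fin n) ℝ) :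
    Matrix (Fin n) (Fin n) ℝ :=
  U.map (Int.cast : ℤ → ℝ) * Q * (U.map (Int.cast : ℤ → ℝ))ᵀ

lemma act_mul {n : ℕ} (U V : Matrix (Fin n) (Fin n) ℤ) (Q : Matrix (Fin n) (Fin n) ℝ) :
    act (U * V) Q = act U (act V Q) := by
  unfold act
  rw [map_mul_cast, Matrix.transpose_mul]
  simp only [Matrix.mul_assoc]

lemma act_one {n : ℕ} (Q : Matrix (Fin n) (Fin n) ℝ) : act 1 Q = Q := by
  unfold act
  rw [map_one_cast]; simp

lemma isOpen_red : ∀ n : ℕ, IsOpen {Q : Matrix (Fin n) (Fin n) ℝ | Red n Q}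
  | 0 => by simp [Red]
  | n + 1 => by
    have ih := isOpen_red n
    rw [isOpen_iff_mem_nhds]
    rintro Q ⟨h0, h1, h2, h3⟩
    have hc : ContinuousAt (fun Q : Matrix (Fin (n + 1)) (Fin (n + 1)) ℝ => schur Q) Q := by
      refine continuousAt_pi.mpr fun i => continuousAt_pi.mpr fun j => ?_
      unfold schur
      have e1 : ∀ a b, ContinuousAt (fun Q : Matrix (Fin (n + 1)) (Fin (n + 1)) ℝ => Q a b) Q :=
        fun a b => (continuous_apply_apply a b).continuousAt
      exact (e1 _ _).sub (((e1 _ _).mul (e1 _ _)).div (e1 _ _) h0.ne')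
    have e1 : ∀ a b, ContinuousAt (fun Q : Matrix (Fin (n + 1)) (Fin (n + 1)) ℝ => Q a b) Q :=
      fun a b => (continuous_apply_apply a b).continuousAt
    have f0 : ∀ᶠ Q' in nhds Q, 0 < Q' 0 0 := (e1 0 0).eventually_const_lt h0
    have f1 : ∀ᶠ Q' in nhds Q, ∀ i : Fin n, |Q' i.succ 0| < Q' 0 0 := by
      rw [Filter.eventually_all]
      intro i
      exact ((e1 i.succ 0).abs).eventually_lt (e1 0 0) (h1 i)
    have f2 : ∀ᶠ Q' in nhds Q, ∀ h : 0 < n, Q' 0 0 < 2 * schur Q' ⟨0, h⟩ ⟨0, h⟩ := by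
      rcases Nat.eq_zero_or_pos n with hn | hn
      · exact Filter.Eventually.of_forall fun Q' h => absurd h (by omega)
      · have e2 : ContinuousAt (fun Q : Matrix (Fin (n + 1)) (Fin (n + 1)) ℝ =>
            schur Q ⟨0, hn⟩ ⟨0, hn⟩) Q :=
          (continuousAt_pi.mp (continuousAt_pi.mp hc ⟨0, hn⟩)) ⟨0, hn⟩
        have := (e1 0 0).eventually_lt (e2.const_mul 2) (h2 hn)
        exact this.mono fun Q' hQ' _ => hQ'
    have f3 : ∀ᶠ Q' in nhds Q, Red n (schur Q') := hc (ih.mem_nhds h3)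
    filter_upwards [f0, f1, f2, f3] with Q' g0 g1 g2 g3
    exact ⟨g0, g1, g2, g3⟩

/-- block matrix `(1, 0; c, M)` -/
def blk {R : Type*} [Zero R] [One R] {n : ℕ} (c : Fin n → R) (M : Matrix (Fin n) (Fin n) R) :
    Matrix (Fin (n + 1)) (Fin (n + 1)) R :=
  Matrix.of fun i j => Fin.cases (Fin.cases (1 : R) (fun _ => 0) j)
      (fun i' => Fin.cases (c i') (fun j' => M i' j') j) i

section blk
variable {R : Type*} [Zero R] [One R] {n : ℕ} (c : Fin n → R) (M : Matrix (Fin n) (Fin n) R)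
@[simp] lemma blk_00 : blk c M 0 0 = 1 := rfl
@[simp] lemma blk_0s (j : Fin n) : blk c M 0 j.succ = 0 := rfl
@[simp] lemma blk_s0 (i : Fin n) : blk c M i.succ 0 = c i := rfl
@[simp] lemma blk_ss (i j : Fin n) : blk c M i.succ j.succ = M i j := rfl
end blk

/-- Gram-Schmidt data of a reduced form. -/
lemma Red.exists_data : ∀ n : ℕ, ∀ Q : Matrix (Fin n) (Fin n) ℝ, (∀ i j, Q i j = Q j i) →
    Red n Q → ∃ (L : Matrix (Fin n) (Fin n) ℝ) (d : Fin n → ℝ),
      (∀ i, L i i = 1) ∧ (∀ i j, i < j → L i j = 0) ∧ (∀ i j, |L i j| ≤ 1) ∧ (∀ i, 0 < d i) ∧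
      (∀ i j : Fin n, i ≤ j → d i ≤ 2 ^ (j.1 - i.1) * d j) ∧ (∀ h : 0 < n, d ⟨0, h⟩ = Q ⟨0, h⟩ ⟨0, h⟩) ∧
      Q = L * diagonal d * Lᵀ
  | 0, Q, _, _ => by
    refine ⟨1, fun _ => 1, fun i => i.elim0, fun i => i.elim0, fun i => i.elim0,
      fun i => i.elim0, fun i => i.elim0, fun h => absurd h (by omega), ?_⟩
    ext i; exact i.elim0
  | n + 1, Q, hs, ⟨h0, h1, h2, h3⟩ => by
    have hs' : ∀ i j, schur Q i j = schur Q j i := by
      intro i j
      unfold schur
      rw [hs i.succ j.succ, hs i.succ 0, hs 0 j.succ]; ring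
    obtain ⟨L', d', a1, a2, a3, a4, a5, a6, a7⟩ := Red.exists_data n (schur Q) hs' h3
    refine ⟨blk (fun i' => Q i'.succ 0 / Q 0 0) L', Fin.cons (Q 0 0) d',
      ?_, ?_, ?_, ?_, ?_, ?_, ?_⟩
    · intro i
      refine Fin.cases ?_ (fun i' => ?_) i <;> simp [a1]
    · intro i j
      refine Fin.cases ?_ (fun i' => ?_) i <;> refine Fin.cases ?_ (fun j' => ?_) j
      · simp
      · simp
      · simp
      · intro h; simpa using a2 i' j' (by simpa using h)
    · intro i j
      refine Fin.cases ?_ (fun i' => ?_) i <;> refine Fin.cases ?_ (fun j' => ?_) j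
      · simp
      · simp
      · rw [blk_s0, abs_div, abs_of_pos h0, div_le_one h0]
        exact (h1 i').le
      · simpa using a3 i' j'
    · intro i
      refine Fin.cases ?_ (fun i' => ?_) i
      · simpa using h0
      · simpa using a4 i'
    · intro i j
      refine Fin.cases ?_ (fun i' => ?_) i <;> refine Fin.cases ?_ (fun j' => ?_) j
      · simp
      · intro _
        have hn : 0 < n := by have := j'.2; omega
        have b1 := h2 hn
        have b2 := a6 hn
        have b3 := a5 ⟨0, hn⟩ j' (by show 0 ≤ j'.1; omega)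
        simp only [Fin.cons_zero, Fin.cons_succ, Fin.val_succ, Fin.val_zero, Nat.sub_zero]
        simp only [Nat.sub_zero] at b3
        calc Q 0 0 ≤ 2 * d' ⟨0, hn⟩ := by rw [b2]; exact b1.le
          _ ≤ 2 * (2 ^ j'.1 * d' j') := by gcongr
          _ = 2 ^ (j'.1 + 1) * d' j' := by ring
      · intro h
        exact absurd h (by simp)
      · intro h
        have := a5 i' j' (by simpa using h)
        simpa using this
    · intro _
      rfl
    · ext i j
      have e : ∀ i' j', Q i'.succ j'.succ = ∑ x, L' i' x * d' x * L' j' x +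
          Q i'.succ 0 * Q 0 j'.succ / Q 0 0 := by
        intro i' j'
        have := congrFun (congrFun a7 i') j'
        rw [Matrix.mul_apply] at this
        simp only [Matrix.mul_diagonal, Matrix.transpose_apply] at this
        unfold schur at this
        linarith
      rw [Matrix.mul_apply]
      simp only [Matrix.mul_diagonal, Matrix.transpose_apply, Fin.sum_univ_succ]
      refine Fin.cases ?_ (fun i' => ?_) i <;> refine Fin.cases ?_ (fun j' => ?_) j
      · simp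
      · simp only [blk_00, blk_0s, blk_s0, blk_ss, Fin.cons_zero, Fin.cons_succ, zero_mul,
          Finset.sum_const_zero, add_zero, one_mul]
        rw [hs 0 j'.succ]
        field_simp
      · simp only [blk_00, blk_0s, blk_s0, blk_ss, Fin.cons_zero, Fin.cons_succ, mul_zero,
          Finset.sum_const_zero, add_zero, mul_one]
        field_simp
      · simp only [blk_00, blk_0s, blk_s0, blk_ss, Fin.cons_zero, Fin.cons_succ]
        rw [e i' j', hs 0 j'.succ]
        field_simp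
        ring

lemma Red.isRedData {n : ℕ} {Q : Matrix (Fin n) (Fin n) ℝ} (hs : ∀ i j, Q i j = Q j i)
    (h : Red n Q) : ∃ (L : Matrix (Fin n) (Fin n) ℝ) (d : Fin n → ℝ), IsRedData L d ∧
      Q = L * diagonal d * Lᵀ := by
  obtain ⟨L, d, a1, a2, a3, a4, a5, _, a7⟩ := Red.exists_data n Q hs h
  refine ⟨L, d, ⟨a1, a2, a3, a4, fun i j hij => (a5 i j hij).trans ?_⟩, a7⟩
  have := (a4 j).le
  have h2 : j.1 - i.1 ≤ n := by have := j.2; omega
  gcongr
  norm_num

/-- **Siegel finiteness**. -/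
theorem siegel_bound (n : ℕ) : ∃ B : ℝ, ∀ (Q : Matrix (Fin n) (Fin n) ℝ)
    (U : (Matrix (Fin n) (Fin n) ℤ)ˣ), (∀ i j, Q i j = Q j i) → Red n Q → Red n (act U.1 Q) →
    ∀ i j, |(U.1 i j : ℝ)| ≤ B := by
  refine ⟨∑ _b : Fin n, (∑ _a : Fin n, (1 : ℝ) * (1 + (K2 n * K2 n) ^ n * K2 n)) *
      (n.factorial : ℝ), fun Q U hs h1 h2 i j => ?_⟩
  obtain ⟨L, d, hL, hQ⟩ := h1.isRedData hs
  have hs' : ∀ i j, act U.1 Q i j = act U.1 Q j i := by
    have hQt : Qᵀ = Q := by ext i j; exact hs j i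
    have : (act U.1 Q)ᵀ = act U.1 Q := by
      unfold act
      rw [Matrix.transpose_mul, Matrix.transpose_mul, Matrix.transpose_transpose, hQt,
        Matrix.mul_assoc]
    intro i j
    exact congrFun (congrFun this j) i
  obtain ⟨L', d', hL', hQ'⟩ := h2.isRedData hs'
  have hp : Pair L L' d d' U.1 (U⁻¹).1 := {
    red := hL
    red' := hL'
    mul := U.mul_inv
    mul' := U.inv_mul
    eq := by
      rw [← hQ', Matrix.transpose_mul]
      unfold act
      rw [hQ]
      simp only [Matrix.mul_assoc] }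
  exact hp.bound i j

theorem siegel_finite (n : ℕ) : {U : (Matrix (Fin n) (Fin n) ℤ)ˣ | ∃ Q : Matrix (Fin n) (Fin n) ℝ,
    (∀ i j, Q i j = Q j i) ∧ Red n Q ∧ Red n (act U.1 Q)}.Finite := by
  obtain ⟨B, hB⟩ := siegel_bound n
  let N : ℤ := ⌈B⌉
  have hfin : {M : Matrix (Fin n) (Fin n) ℤ | ∀ i j, M i j ∈ Set.Icc (-N) N}.Finite := by
    have := Set.Finite.pi (t := fun _ : Fin n => {x : Fin n → ℤ | ∀ j, x j ∈ Set.Icc (-N) N})
      (fun i => by
        have := Set.Finite.pi (t := fun _ : Fin n => Set.Icc (-N) N) (fun _ => Set.finite_Icc _ _)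
        refine this.subset ?_
        intro x hx j _
        exact hx j)
    refine this.subset ?_
    intro M hM i _ j
    exact hM i j
  refine Set.Finite.of_finite_image (f := fun U : (Matrix (Fin n) (Fin n) ℤ)ˣ => U.1)
    (hfin.subset ?_) (fun U _ V _ h => Units.ext h)
  rintro _ ⟨U, ⟨Q, hs, h1, h2⟩, rfl⟩ i j
  have h3 := hB Q U hs h1 h2 i j
  rw [abs_le] at h3
  have h4 : (B : ℝ) ≤ (N : ℝ) := Int.le_ceil B
  refine ⟨?_, ?_⟩
  · have : (-(N : ℝ)) ≤ (U.1 i j : ℝ) := by linarith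
    exact_mod_cast this
  · have : (U.1 i j : ℝ) ≤ (N : ℝ) := by linarith
    exact_mod_cast this

end Reduction
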