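import Mathlib
import Pool.Agent.Lib_helper97.Red.Form

/-!
Reduction theory of `GL_n(ℤ)`, part 3: existence of reduced bases.
-/

namespace Reduction

open Matrix Finset

variable {n : ℕ}

lemma blk_mul_cast (t : Fin n → ℤ) (M : Matrix (Fin n) (Fin n) ℤ) :
    (blk t M).map (Int.cast : ℤ → ℝ) = blk (fun i => (t i : ℝ)) (M.map (Int.cast : ℤ → ℝ)) := by
  ext i j
  refine Fin.cases ?_ (fun i' => ?_) i <;> refine Fin.cases ?_ (fun j' => ?_) j <;>
    simp [Matrix.map_apply]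

lemma blk_mul_blk (t s : Fin n → ℤ) (M N : Matrix (Fin n) (Fin n) ℤ) :
    blk t M * blk s N = blk (fun i => t i + ∑ j, M i j * s j) (M * N) := by
  ext i j
  rw [Matrix.mul_apply, Fin.sum_univ_succ]
  refine Fin.cases ?_ (fun i' => ?_) i <;> refine Fin.cases ?_ (fun j' => ?_) j <;>
    simp [Matrix.mul_apply]

lemma blk_one : blk (fun _ => (0 : ℤ)) (1 : Matrix (Fin n) (Fin n) ℤ) = 1 := by
  ext i j
  refine Fin.cases ?_ (fun i' => ?_) i <;> refine Fin.cases ?_ (fun j' => ?_) j <;>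
    simp [Matrix.one_apply, (Fin.succ_ne_zero _).symm]

/-- the unit `(1,0;t,V)` -/
def blkUnit (t : Fin n → ℤ) (V : (Matrix (Fin n) (Fin n) ℤ)ˣ) :
    (Matrix (Fin (n + 1)) (Fin (n + 1)) ℤ)ˣ where
  val := blk t V.1
  inv := blk (fun i => -∑ j, V⁻¹.1 i j * t j) V⁻¹.1
  val_inv := by
    rw [blk_mul_blk, V.mul_inv, ← blk_one]
    congr 1
    ext i
    have h : ∑ j, V.1 i j * (-∑ k, V⁻¹.1 j k * t k) = - ∑ k, (V.1 * V⁻¹.1) i k * t k := by
      simp only [mul_neg, Finset.sum_neg_distrib, Matrix.mul_apply, Finset.sum_mul,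
        Finset.mul_sum, neg_inj]
      rw [Finset.sum_comm]
      simp only [mul_assoc]
    rw [h, V.mul_inv]
    simp [Matrix.one_apply]
  inv_val := by
    rw [blk_mul_blk, V.inv_mul, ← blk_one]
    congr 1
    ext i
    ring

lemma act_blk_00 (t : Fin n → ℤ) (M : Matrix (Fin n) (Fin n) ℤ)
    (Q : Matrix (Fin (n + 1)) (Fin (n + 1)) ℝ) : act (blk t M) Q 0 0 = Q 0 0 := by
  unfold act
  rw [blk_mul_cast, Matrix.mul_apply, Fin.sum_univ_succ]
  simp [Matrix.mul_apply, Fin.sum_univ_succ, Matrix.transpose_apply]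

lemma act_blk_s0 (t : Fin n → ℤ) (M : Matrix (Fin n) (Fin n) ℤ)
    (Q : Matrix (Fin (n + 1)) (Fin (n + 1)) ℝ) (i : Fin n) :
    act (blk t M) Q i.succ 0 = t i * Q 0 0 + ∑ k, (M i k : ℝ) * Q k.succ 0 := by
  unfold act
  rw [blk_mul_cast, Matrix.mul_apply, Fin.sum_univ_succ]
  simp [Matrix.mul_apply, Fin.sum_univ_succ, Matrix.transpose_apply, Matrix.map_apply]

lemma act_blk_0s (t : Fin n → ℤ) (M : Matrix (Fin n) (Fin n) ℤ)
    (Q : Matrix (Fin (n + 1)) (Fin (n + 1)) ℝ) (j : Fin n) :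
    act (blk t M) Q 0 j.succ = t j * Q 0 0 + ∑ k, (M j k : ℝ) * Q 0 k.succ := by
  unfold act
  rw [blk_mul_cast, Matrix.mul_apply, Fin.sum_univ_succ]
  simp [Matrix.mul_apply, Fin.sum_univ_succ, Matrix.transpose_apply, Matrix.map_apply, mul_comm]

lemma act_blk_ss (t : Fin n → ℤ) (M : Matrix (Fin n) (Fin n) ℤ)
    (Q : Matrix (Fin (n + 1)) (Fin (n + 1)) ℝ) (i j : Fin n) :
    act (blk t M) Q i.succ j.succ = t i * t j * Q 0 0 + t i * ∑ k, (M j k : ℝ) * Q 0 k.succ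
      + t j * ∑ k, (M i k : ℝ) * Q k.succ 0
      + ∑ k, ∑ l, (M i k : ℝ) * Q k.succ l.succ * (M j l : ℝ) := by
  unfold act
  rw [blk_mul_cast, Matrix.mul_apply, Fin.sum_univ_succ]
  simp only [Matrix.mul_apply, Fin.sum_univ_succ, Matrix.transpose_apply, Matrix.map_apply,
    blk_s0, blk_ss]
  have e1 : ∑ x, ((t i : ℝ) * Q 0 x.succ + ∑ y, (M i y : ℝ) * Q y.succ x.succ) * (M j x : ℝ)
      = t i * ∑ k, (M j k : ℝ) * Q 0 k.succ
        + ∑ k, ∑ l, (M i k : ℝ) * Q k.succ l.succ * (M j l : ℝ) := by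
    rw [Finset.sum_comm (f := fun k l => (M i k : ℝ) * Q k.succ l.succ * (M j l : ℝ)),
      Finset.mul_sum, ← Finset.sum_add_distrib]
    refine Finset.sum_congr rfl fun x _ => ?_
    rw [add_mul, Finset.sum_mul]
    ring
  rw [e1]
  ring

lemma schur_apply (Q : Matrix (Fin (n + 1)) (Fin (n + 1)) ℝ) (i j : Fin n) :
    schur Q i j = Q i.succ j.succ - Q i.succ 0 * Q 0 j.succ / Q 0 0 := rfl

lemma schur_act_blk (t : Fin n → ℤ) (V : Matrix (Fin n) (Fin n) ℤ)
    (Q : Matrix (Fin (n + 1)) (Fin (n + 1)) ℝ) (h0 : Q 0 0 ≠ 0) :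
    schur (act (blk t V) Q) = act V (schur Q) := by
  ext i j
  have e : act V (schur Q) i j = ∑ k, ∑ l, (V i k : ℝ) * Q k.succ l.succ * (V j l : ℝ)
      - (∑ k, (V i k : ℝ) * Q k.succ 0) * (∑ k, (V j k : ℝ) * Q 0 k.succ) / Q 0 0 := by
    unfold act
    rw [Matrix.mul_apply]
    simp only [Matrix.mul_apply, Matrix.transpose_apply, Matrix.map_apply, schur_apply]
    rw [Finset.sum_mul_sum, Finset.sum_div, ← Finset.sum_sub_distrib]
    simp only [Finset.sum_mul]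
    rw [Finset.sum_comm]
    refine Finset.sum_congr rfl fun k _ => ?_
    rw [Finset.sum_div, ← Finset.sum_sub_distrib]
    refine Finset.sum_congr rfl fun l _ => ?_
    ring
  rw [e]
  unfold schur
  rw [act_blk_ss, act_blk_s0, act_blk_0s, act_blk_00]
  field_simp
  ring

lemma PD.actU {Q : Matrix (Fin n) (Fin n) ℝ} (h : PD Q) (U : (Matrix (Fin n) (Fin n) ℤ)ˣ) :
    PD (act U.1 Q) where
  symm := by
    have hQt : Qᵀ = Q := by ext i j; exact h.symm j i
    have : (Reduction.act U.1 Q)ᵀ = Reduction.act U.1 Q := by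
      unfold Reduction.act
      rw [Matrix.transpose_mul, Matrix.transpose_mul, Matrix.transpose_transpose, hQt,
        Matrix.mul_assoc]
    intro i j
    exact congrFun (congrFun this j) i
  pos := by
    intro x hx
    have e : x ⬝ᵥ (Reduction.act U.1 Q *ᵥ x) =
        ((U.1.map (Int.cast : ℤ → ℝ))ᵀ *ᵥ x) ⬝ᵥ (Q *ᵥ ((U.1.map (Int.cast : ℤ → ℝ))ᵀ *ᵥ x)) := by
      unfold Reduction.act
      rw [← Matrix.mulVec_mulVec, ← Matrix.mulVec_mulVec, Matrix.dotProduct_mulVec,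
        ← Matrix.mulVec_transpose]
    rw [e]
    apply h.pos
    intro h0
    apply hx
    have e1 : (U⁻¹.1.map (Int.cast : ℤ → ℝ))ᵀ * (U.1.map (Int.cast : ℤ → ℝ))ᵀ = 1 := by
      rw [← Matrix.transpose_mul, ← map_mul_cast, U.mul_inv, map_one_cast, Matrix.transpose_one]
    calc x = ((U⁻¹.1.map (Int.cast : ℤ → ℝ))ᵀ * (U.1.map (Int.cast : ℤ → ℝ))ᵀ) *ᵥ x := by
          rw [e1, Matrix.one_mulVec]
      _ = 0 := by rw [← Matrix.mulVec_mulVec, h0, Matrix.mulVec_zero]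

lemma PD.diag_pos {Q : Matrix (Fin n) (Fin n) ℝ} (h : PD Q) (i : Fin n) : 0 < Q i i := by
  classical
  have := h.pos (Pi.single i 1) (by
    intro h0
    have := congrFun h0 i
    simp at this)
  simpa using this

lemma PD.schurC {Q : Matrix (Fin (n + 1)) (Fin (n + 1)) ℝ} (h : PD Q) : PD (schur Q) where
  symm := by
    intro i j
    unfold Reduction.schur
    rw [h.symm i.succ j.succ, h.symm i.succ 0, h.symm 0 j.succ]; ring
  pos := by
    intro x hx
    have h0 := h.diag_pos 0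
    let w : ℝ := ∑ i, Q 0 i.succ * x i
    let y : Fin (n + 1) → ℝ := Fin.cons (-w / Q 0 0) x
    have hy : y ≠ 0 := by
      intro hy
      apply hx
      ext i
      have := congrFun hy i.succ
      simpa [y] using this
    have h1 := h.pos y hy
    have e : y ⬝ᵥ (Q *ᵥ y) = x ⬝ᵥ (Reduction.schur Q *ᵥ x) := by
      have w1 : ∑ i : Fin n, x i * Q i.succ 0 = w := by
        refine Finset.sum_congr rfl fun i _ => ?_
        rw [h.symm i.succ 0]; ring
      have e2 : x ⬝ᵥ (Reduction.schur Q *ᵥ x) = ∑ i, ∑ j, x i * Q i.succ j.succ * x j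
          - w * w / Q 0 0 := by
        have : w * w / Q 0 0 = ∑ i : Fin n, ∑ j : Fin n,
            x i * (Q i.succ 0 * Q 0 j.succ / Q 0 0) * x j := by
          conv_lhs => rw [show w * w = (∑ i : Fin n, x i * Q i.succ 0) * w by rw [w1]]
          rw [Finset.sum_mul_sum, Finset.sum_div]
          refine Finset.sum_congr rfl fun i _ => ?_
          rw [Finset.sum_div]
          refine Finset.sum_congr rfl fun j _ => ?_
          ring
        rw [this, ← Finset.sum_sub_distrib]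
        simp only [dotProduct, Matrix.mulVec, Finset.mul_sum]
        refine Finset.sum_congr rfl fun i _ => ?_
        rw [← Finset.sum_sub_distrib]
        refine Finset.sum_congr rfl fun j _ => ?_
        unfold Reduction.schur
        ring
      rw [e2]
      have e3 : ∀ i : Fin n, (Q *ᵥ y) i.succ = Q i.succ 0 * (-w / Q 0 0)
          + ∑ j, Q i.succ j.succ * x j := by
        intro i
        simp only [Matrix.mulVec, dotProduct, Fin.sum_univ_succ, y, Fin.cons_zero, Fin.cons_succ]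
      have e4 : (Q *ᵥ y) 0 = Q 0 0 * (-w / Q 0 0) + w := by
        simp only [Matrix.mulVec, dotProduct, Fin.sum_univ_succ, y, Fin.cons_zero, Fin.cons_succ, w]
      simp only [dotProduct]
      rw [Fin.sum_univ_succ]
      simp only [e3, e4, y, Fin.cons_zero, Fin.cons_succ]
      have e5 : ∑ i : Fin n, x i * (Q i.succ 0 * (-w / Q 0 0) + ∑ j, Q i.succ j.succ * x j)
          = w * (-w / Q 0 0) + ∑ i, ∑ j, x i * Q i.succ j.succ * x j := by
        conv_rhs => rw [show w * (-w / Q 0 0) = (∑ i : Fin n, x i * Q i.succ 0) * (-w / Q 0 0) by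
          rw [w1]]
        rw [Finset.sum_mul, ← Finset.sum_add_distrib]
        refine Finset.sum_congr rfl fun i _ => ?_
        rw [mul_add, Finset.mul_sum]
        congr 1
        · ring
        · refine Finset.sum_congr rfl fun j _ => ?_
          ring
      rw [e5]
      field_simp
      ring
    rw [← e]
    exact h1

lemma PD.coercive {Q : Matrix (Fin n) (Fin n) ℝ} (h : PD Q) :
    ∃ lam : ℝ, 0 < lam ∧ ∀ x : Fin n → ℝ, lam * ‖x‖ ^ 2 ≤ x ⬝ᵥ (Q *ᵥ x) := by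
  have hcont : Continuous (fun x : Fin n → ℝ => x ⬝ᵥ (Q *ᵥ x)) := by
    simp only [dotProduct, Matrix.mulVec]
    fun_prop
  rcases (Metric.sphere (0 : Fin n → ℝ) 1).eq_empty_or_nonempty with he | hne
  · refine ⟨1, one_pos, fun x => ?_⟩
    by_cases hx : x = 0
    · subst hx; simp
    · exfalso
      have : (‖x‖⁻¹ • x) ∈ Metric.sphere (0 : Fin n → ℝ) 1 := by
        simp [norm_smul, hx]
      rw [he] at this
      exact this
  · obtain ⟨x0, hx0, hmin⟩ := (isCompact_sphere (0 : Fin n → ℝ) 1).exists_isMinOn hne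
      hcont.continuousOn
    have hx0' : x0 ≠ 0 := by
      intro h0
      rw [h0] at hx0
      simp at hx0
    refine ⟨x0 ⬝ᵥ (Q *ᵥ x0), h.pos x0 hx0', fun x => ?_⟩
    by_cases hx : x = 0
    · subst hx; simp
    · have hnx : 0 < ‖x‖ := norm_pos_iff.mpr hx
      have h1 : (‖x‖⁻¹ • x) ∈ Metric.sphere (0 : Fin n → ℝ) 1 := by
        simp [norm_smul, hx]
      have h2 := hmin h1
      simp only [Set.mem_ofPred_eq] at h2
      rw [Matrix.mulVec_smul, smul_dotProduct, dotProduct_smul, smul_eq_mul, smul_eq_mul] at h2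
      calc x0 ⬝ᵥ (Q *ᵥ x0) * ‖x‖ ^ 2 ≤ (‖x‖⁻¹ * (‖x‖⁻¹ * x ⬝ᵥ (Q *ᵥ x))) * ‖x‖ ^ 2 := by
            gcongr
        _ = x ⬝ᵥ (Q *ᵥ x) := by field_simp

lemma PD.finite_le {Q : Matrix (Fin n) (Fin n) ℝ} (h : PD Q) (c : ℝ) :
    {x : Fin n → ℤ | (fun i => (x i : ℝ)) ⬝ᵥ (Q *ᵥ (fun i => (x i : ℝ))) ≤ c}.Finite := by
  obtain ⟨lam, hlam, hco⟩ := h.coercive
  let N : ℤ := ⌈1 + c / lam⌉
  have := Set.Finite.pi (t := fun _ : Fin n => Set.Icc (-N) N) (fun _ => Set.finite_Icc _ _)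
  refine this.subset ?_
  intro x hx j _
  simp only [Set.mem_ofPred_eq] at hx
  have h1 := (hco (fun i => (x i : ℝ))).trans hx
  have h2 : ‖(fun i => (x i : ℝ))‖ ^ 2 ≤ c / lam := by
    rw [le_div_iff₀ hlam]; linarith
  have h3 : |(x j : ℝ)| ≤ ‖(fun i => (x i : ℝ))‖ := by
    have := norm_le_pi_norm (fun i => (x i : ℝ)) j
    simpa using this
  have h4 : |(x j : ℝ)| ≤ 1 + c / lam := by nlinarith [norm_nonneg (fun i => (x i : ℝ))]
  have h5 : (1 + c / lam : ℝ) ≤ (N : ℝ) := Int.le_ceil _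
  rw [abs_le] at h4
  refine ⟨?_, ?_⟩
  · have : (-(N : ℝ)) ≤ (x j : ℝ) := by linarith
    exact_mod_cast this
  · have : (x j : ℝ) ≤ (N : ℝ) := by linarith
    exact_mod_cast this

lemma act_00 (U : Matrix (Fin (n + 1)) (Fin (n + 1)) ℤ) (Q : Matrix (Fin (n + 1)) (Fin (n + 1)) ℝ)
    (i : Fin (n + 1)) :
    act U Q i i = (fun j => (U i j : ℝ)) ⬝ᵥ (Q *ᵥ (fun j => (U i j : ℝ))) := by
  unfold act
  rw [Matrix.mul_assoc, Matrix.mul_apply]
  simp only [dotProduct, Matrix.map_apply, Matrix.mul_apply, Matrix.mulVec, Matrix.transpose_apply]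

lemma PD.exists_min {Q : Matrix (Fin (n + 1)) (Fin (n + 1)) ℝ} (h : PD Q) :
    ∃ U : (Matrix (Fin (n + 1)) (Fin (n + 1)) ℤ)ˣ,
      ∀ V : (Matrix (Fin (n + 1)) (Fin (n + 1)) ℤ)ˣ, act U.1 Q 0 0 ≤ act V.1 Q 0 0 := by
  have hfin := h.finite_le (act 1 Q 0 0)
  let S : Set (Fin (n + 1) → ℤ) := {x | (fun i => (x i : ℝ)) ⬝ᵥ (Q *ᵥ (fun i => (x i : ℝ)))
    ≤ act 1 Q 0 0 ∧ ∃ U : (Matrix (Fin (n + 1)) (Fin (n + 1)) ℤ)ˣ, U.1 0 = x}
  have hS : S.Finite := hfin.subset (fun x hx => hx.1)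
  have hne : S.Nonempty := by
    refine ⟨(1 : (Matrix (Fin (n + 1)) (Fin (n + 1)) ℤ)ˣ).1 0, ?_, 1, rfl⟩
    rw [act_00]
    exact le_rfl
  obtain ⟨x, ⟨hx1, U, hU⟩, hmin⟩ := Set.exists_min_image S
    (fun x : Fin (n + 1) → ℤ => (fun i => (x i : ℝ)) ⬝ᵥ (Q *ᵥ (fun i => (x i : ℝ)))) hS hne
  refine ⟨U, fun V => ?_⟩
  have hU' : act U.1 Q 0 0 = (fun i => (x i : ℝ)) ⬝ᵥ (Q *ᵥ (fun i => (x i : ℝ))) := by
    rw [act_00, ← hU]
  rw [hU']
  by_cases hV : act V.1 Q 0 0 ≤ act 1 Q 0 0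
  · have := hmin (V.1 0) ⟨by rw [act_00] at hV; exact hV, V, rfl⟩
    rw [act_00]
    exact this
  · exact hx1.trans (not_le.mp hV).le

/-- swap of two basis vectors -/
def swapUnit (n : ℕ) (i j : Fin n) : (Matrix (Fin n) (Fin n) ℤ)ˣ :=
  ⟨Matrix.swap ℤ i j, Matrix.swap ℤ i j, Matrix.swap_mul_self i j, Matrix.swap_mul_self i j⟩

lemma act_swap (i j : Fin n) (Q : Matrix (Fin n) (Fin n) ℝ) :
    act (swapUnit n i j).1 Q i i = Q j j := by
  unfold act swapUnit
  have : (Matrix.swap ℤ i j).map (Int.cast : ℤ → ℝ) = Matrix.swap ℝ i j :=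
    Matrix.map_swap (Int.castRingHom ℝ) i j
  rw [this, Matrix.transpose_swap, Matrix.mul_swap_apply_left, Matrix.swap_mul_apply_left]

/-- **existence of reduced bases** -/
theorem exists_reduced : ∀ (n : ℕ) (Q : Matrix (Fin n) (Fin n) ℝ), PD Q →
    ∃ U : (Matrix (Fin n) (Fin n) ℤ)ˣ, Red n (act U.1 Q)
  | 0, Q, _ => ⟨1, trivial⟩
  | n + 1, Q, hQ => by
    obtain ⟨U1, hmin⟩ := hQ.exists_min
    have hQ1 := hQ.actU U1
    set Q1 := act U1.1 Q with hQ1def
    obtain ⟨V, hV⟩ := exists_reduced n (schur Q1) hQ1.schurC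
    have h0 := hQ1.diag_pos 0
    let t : Fin n → ℤ := fun i => - round ((∑ k, (V.1 i k : ℝ) * Q1 k.succ 0) / Q1 0 0)
    have hle : ∀ W : (Matrix (Fin (n + 1)) (Fin (n + 1)) ℤ)ˣ, Q1 0 0 ≤ act W.1 Q1 0 0 := by
      intro W
      have := hmin (W * U1)
      rw [Units.val_mul, act_mul] at this
      exact this
    refine ⟨blkUnit t V * U1, ?_⟩
    rw [Units.val_mul, act_mul, ← hQ1def]
    have hB : (blkUnit t V).1 = blk t V.1 := rfl
    rw [hB]
    have hhalf : ∀ i : Fin n, |act (blk t V.1) Q1 i.succ 0| ≤ Q1 0 0 / 2 := by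
      intro i
      rw [act_blk_s0]
      set w := ∑ k, (V.1 i k : ℝ) * Q1 k.succ 0 with hw
      have h1 := abs_sub_round (w / Q1 0 0)
      have h2 : (t i : ℝ) * Q1 0 0 + w = (w / Q1 0 0 - round (w / Q1 0 0)) * Q1 0 0 := by
        simp only [t]
        push_cast
        rw [← hw]
        field_simp
        ring
      rw [h2, abs_mul, abs_of_pos h0]
      nlinarith
    refine ⟨?_, ?_, ?_, ?_⟩
    · rw [act_blk_00]; exact h0
    · intro i
      rw [act_blk_00]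
      have := hhalf i
      linarith
    · intro hn
      rw [act_blk_00]
      have h1 := hle (swapUnit (n + 1) 0 (⟨0, hn⟩ : Fin n).succ * blkUnit t V)
      rw [Units.val_mul, act_mul, act_swap, hB] at h1
      have h2 := hhalf ⟨0, hn⟩
      have hsym := (hQ1.actU (blkUnit t V)).symm 0 (⟨0, hn⟩ : Fin n).succ
      rw [hB] at hsym
      have h3 : act (blk t V.1) Q1 (⟨0, hn⟩ : Fin n).succ (⟨0, hn⟩ : Fin n).succ
          = schur (act (blk t V.1) Q1) ⟨0, hn⟩ ⟨0, hn⟩ +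
            act (blk t V.1) Q1 (⟨0, hn⟩ : Fin n).succ 0 ^ 2 / Q1 0 0 := by
        rw [schur_apply, act_blk_00, hsym]; ring
      rw [h3] at h1
      have h4 : act (blk t V.1) Q1 (⟨0, hn⟩ : Fin n).succ 0 ^ 2 / Q1 0 0 ≤ Q1 0 0 / 4 := by
        rw [div_le_iff₀ h0]
        have := abs_le.mp h2
        nlinarith
      linarith
    · rw [schur_act_blk t V.1 Q1 h0.ne']
      exact hV

end Reduction
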