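import Mathlib
import Pool.Agent.Lib_helper97.Red.Exist

/-!
Reduction theory of `GL_n(ℤ)`, part 4: the Jordan-Zassenhaus theorem and finite generation of
centralizers of finite subgroups.
-/

namespace Reduction

open Matrix Finset

variable {n : ℕ}

/-- `GL_n(ℤ)` -/
abbrev GZ (n : ℕ) := (Matrix (Fin n) (Fin n) ℤ)ˣ

lemma act_add (U : Matrix (Fin n) (Fin n) ℤ) (P Q : Matrix (Fin n) (Fin n) ℝ) :
    act U (P + Q) = act U P + act U Q := by
  unfold act; rw [Matrix.mul_add, Matrix.add_mul]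

lemma act_smul (U : Matrix (Fin n) (Fin n) ℤ) (c : ℝ) (Q : Matrix (Fin n) (Fin n) ℝ) :
    act U (c • Q) = c • act U Q := by
  unfold act; rw [Matrix.mul_smul, Matrix.smul_mul]

lemma act_sum {ι : Type*} (s : Finset ι) (U : Matrix (Fin n) (Fin n) ℤ)
    (Q : ι → Matrix (Fin n) (Fin n) ℝ) : act U (∑ i ∈ s, Q i) = ∑ i ∈ s, act U (Q i) := by
  unfold act; rw [Matrix.mul_sum, Matrix.sum_mul]

lemma PD.one : PD (1 : Matrix (Fin n) (Fin n) ℝ) where
  symm := by intro i j; simp [Matrix.one_apply, eq_comm]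
  pos := by
    intro x hx
    rw [Matrix.one_mulVec]
    have : (0 : ℝ) < ∑ i, x i * x i := by
      obtain ⟨i, hi⟩ := Function.ne_iff.mp hx
      refine Finset.sum_pos' (fun j _ => mul_self_nonneg _) ⟨i, Finset.mem_univ i, ?_⟩
      exact mul_self_pos.mpr hi
    exact this

lemma PD.add {P Q : Matrix (Fin n) (Fin n) ℝ} (hP : PD P) (hQ : PD Q) : PD (P + Q) where
  symm := by intro i j; rw [Matrix.add_apply, Matrix.add_apply, hP.symm, hQ.symm]
  pos := by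
    intro x hx
    rw [Matrix.add_mulVec, dotProduct_add]
    exact add_pos (hP.pos x hx) (hQ.pos x hx)

lemma PD.smul {Q : Matrix (Fin n) (Fin n) ℝ} (hQ : PD Q) {c : ℝ} (hc : 0 < c) : PD (c • Q) where
  symm := by intro i j; rw [Matrix.smul_apply, Matrix.smul_apply, hQ.symm]
  pos := by
    intro x hx
    rw [Matrix.smul_mulVec, dotProduct_smul, smul_eq_mul]
    exact mul_pos hc (hQ.pos x hx)

lemma PD.sum {ι : Type*} (s : Finset ι) (hs : s.Nonempty) (Q : ι → Matrix (Fin n) (Fin n) ℝ)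
    (h : ∀ i, PD (Q i)) : PD (∑ i ∈ s, Q i) := by
  classical
  induction hs using Finset.Nonempty.cons_induction with
  | singleton a => simpa using h a
  | cons a s ha hs ih => rw [Finset.sum_cons]; exact (h a).add ih

lemma PD.line {P Q : Matrix (Fin n) (Fin n) ℝ} (hP : PD P) (hQ : PD Q) {t : ℝ} (h0 : 0 ≤ t)
    (h1 : t ≤ 1) : PD ((1 - t) • P + t • Q) := by
  rcases h0.eq_or_lt with h | h
  · subst h; simpa using hP
  · rcases h1.eq_or_lt with h' | h'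
    · subst h'; simpa using hQ
    · exact (hP.smul (by linarith)).add (hQ.smul h)

variable {G : Type*} [Group G] [Finite G]

lemma exists_invariant_form (ρ : G →* GZ n) :
    ∃ Q : Matrix (Fin n) (Fin n) ℝ, PD Q ∧ ∀ g, act (ρ g).1 Q = Q := by
  classical
  haveI := Fintype.ofFinite G
  refine ⟨∑ g : G, act (ρ g).1 1, PD.sum _ ⟨1, Finset.mem_univ 1⟩ _
    (fun g => PD.one.actU (ρ g)), fun h => ?_⟩
  rw [act_sum]
  refine Fintype.sum_equiv (Equiv.mulLeft h) _ _ fun g => ?_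
  rw [← act_mul]
  simp

/-- The Siegel finite set. -/
def Phi (n : ℕ) : Set (GZ n) := {U | ∃ Q : Matrix (Fin n) (Fin n) ℝ,
    (∀ i j, Q i j = Q j i) ∧ Red n Q ∧ Red n (act U.1 Q)}

lemma Phi_finite (n : ℕ) : (Phi n).Finite := siegel_finite n

lemma finite_homs (n : ℕ) : {σ : G →* GZ n | ∀ g, σ g ∈ Phi n}.Finite := by
  have h1 : {f : G → GZ n | ∀ g, f g ∈ Phi n}.Finite := by
    have := Set.Finite.pi (t := fun _ : G => Phi n) (fun _ => Phi_finite n)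
    refine this.subset ?_
    intro f hf g _
    exact hf g
  refine Set.Finite.of_finite_image (f := fun σ : G →* GZ n => (σ : G → GZ n))
    (h1.subset ?_) (fun σ _ τ _ h => DFunLike.coe_injective h)
  rintro _ ⟨σ, hσ, rfl⟩
  exact hσ

lemma conj_mem_Phi (ρ : G →* GZ n) (Q : Matrix (Fin n) (Fin n) ℝ) (hQ : PD Q)
    (hinv : ∀ g, act (ρ g).1 Q = Q) (U : GZ n) (hU : Red n (act U.1 Q)) (g : G) :
    U * ρ g * U⁻¹ ∈ Phi n := by
  refine ⟨act U.1 Q, (hQ.actU U).symm, hU, ?_⟩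
  rw [← act_mul, ← Units.val_mul, inv_mul_cancel_right, Units.val_mul, act_mul, hinv]
  exact hU

/-- **Jordan-Zassenhaus** for integral representations of a finite group. -/
theorem jordan_zassenhaus (G : Type*) [Group G] [Finite G] (n : ℕ) :
    ∃ S : Set (G →* (Matrix (Fin n) (Fin n) ℤ)ˣ), S.Finite ∧
      ∀ ρ : G →* (Matrix (Fin n) (Fin n) ℤ)ˣ, ∃ σ ∈ S, ∃ γ : (Matrix (Fin n) (Fin n) ℤ)ˣ,
        ∀ g, γ * ρ g * γ⁻¹ = σ g := by
  refine ⟨_, finite_homs (G := G) n, fun ρ => ?_⟩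
  obtain ⟨Q, hQ, hinv⟩ := exists_invariant_form ρ
  obtain ⟨U, hU⟩ := exists_reduced n Q hQ
  exact ⟨(MulAut.conj U).toMonoidHom.comp ρ, fun g => conj_mem_Phi ρ Q hQ hinv U hU g, U,
    fun g => rfl⟩

/-- **Finite generation** of the centralizer of a finite group of integral matrices. -/
theorem centralizer_fg (G : Type*) [Group G] [Finite G] (n : ℕ)
    (ρ : G →* (Matrix (Fin n) (Fin n) ℤ)ˣ) :
    (Subgroup.centralizer (Set.range ρ)).FG := by
  classical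
  -- the finite set of reduced conjugates
  let R0 : Set (G →* GZ n) := {σ | (∀ g, σ g ∈ Phi n) ∧ ∃ b : GZ n, ∀ g, b * ρ g * b⁻¹ = σ g}
  have hR0 : R0.Finite := (finite_homs n).subset fun σ hσ => hσ.1
  choose! b hb using fun (σ : G →* GZ n) (hσ : σ ∈ R0) => hσ.2
  let F : Set (Matrix (Fin n) (Fin n) ℝ) := {Q | PD Q ∧ (∀ g, act (ρ g).1 Q = Q) ∧
    ∃ σ ∈ R0, Red n (act (b σ).1 Q)}
  let Γ := Subgroup.centralizer (Set.range ρ)
  let Sg : Set (GZ n) := {z | z ∈ Γ ∧ ∃ Q ∈ F, act z.1 Q ∈ F}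
  have hcomm : ∀ z ∈ Γ, ∀ g, ρ g * z = z * ρ g := by
    intro z hz g
    exact Subgroup.mem_centralizer_iff.mp hz _ ⟨g, rfl⟩
  have hinv : ∀ z ∈ Γ, ∀ Q : Matrix (Fin n) (Fin n) ℝ, (∀ g, act (ρ g).1 Q = Q) →
      ∀ g, act (ρ g).1 (act z.1 Q) = act z.1 Q := by
    intro z hz Q hQ g
    rw [← act_mul, ← Units.val_mul, hcomm z hz g, Units.val_mul, act_mul, hQ]
  -- finiteness of the generating set
  have hSg : Sg.Finite := by
    have h1 : (⋃ σ ∈ R0, ⋃ σ' ∈ R0, (fun φ => (b σ')⁻¹ * φ * b σ) '' Phi n).Finite :=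
      hR0.biUnion fun σ _ => hR0.biUnion fun σ' _ => (Phi_finite n).image _
    refine h1.subset ?_
    rintro z ⟨hz, Q, ⟨hQ, hQi, σ, hσ, hr⟩, ⟨_, _, σ', hσ', hr'⟩⟩
    simp only [Set.mem_iUnion]
    refine ⟨σ, hσ, σ', hσ', b σ' * z * (b σ)⁻¹, ?_, by group⟩
    refine ⟨act (b σ).1 Q, (hQ.actU _).symm, hr, ?_⟩
    rw [← act_mul, ← Units.val_mul, inv_mul_cancel_right, Units.val_mul, act_mul]
    exact hr'
  -- covering
  have hcov : ∀ Q : Matrix (Fin n) (Fin n) ℝ, PD Q → (∀ g, act (ρ g).1 Q = Q) →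
      ∃ z ∈ Γ, act z.1 Q ∈ F := by
    intro Q hQ hQi
    obtain ⟨U, hU⟩ := exists_reduced n Q hQ
    have hσ : (MulAut.conj U).toMonoidHom.comp ρ ∈ R0 :=
      ⟨fun g => conj_mem_Phi ρ Q hQ hQi U hU g, U, fun g => rfl⟩
    set σ := (MulAut.conj U).toMonoidHom.comp ρ with hσdef
    have hbσ := hb σ hσ
    have hz : (b σ)⁻¹ * U ∈ Γ := by
      rw [Subgroup.mem_centralizer_iff]
      rintro _ ⟨g, rfl⟩
      have h1 : b σ * ρ g * (b σ)⁻¹ = U * ρ g * U⁻¹ := hbσ g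
      have h2 : ρ g = (b σ)⁻¹ * (U * ρ g * U⁻¹) * b σ := by rw [← h1]; group
      calc ρ g * ((b σ)⁻¹ * U) = ((b σ)⁻¹ * (U * ρ g * U⁻¹) * b σ) * ((b σ)⁻¹ * U) := by
            rw [← h2]
        _ = (b σ)⁻¹ * U * ρ g := by group
    refine ⟨(b σ)⁻¹ * U, hz, hQ.actU _, hinv _ hz Q hQi, σ, hσ, ?_⟩
    rw [← act_mul, ← Units.val_mul, mul_inv_cancel_left]
    exact hU
  obtain ⟨Q1, hQ1, hQ1i⟩ := exists_invariant_form ρ
  obtain ⟨z0, hz0, hQ0⟩ := hcov Q1 hQ1 hQ1i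
  set Q0 := act z0.1 Q1 with hQ0def
  obtain ⟨hQ0p, hQ0i, _⟩ := id hQ0
  refine (Subgroup.fg_iff _).mpr ⟨Sg, ?_, hSg⟩
  apply le_antisymm
  · rw [Subgroup.closure_le]
    intro z hz
    exact hz.1
  intro z hz
  set H := Subgroup.closure Sg with hH
  have hHle : H ≤ Γ := by
    rw [hH, Subgroup.closure_le]
    intro z hz
    exact hz.1
  -- the path
  let q : ℝ → Matrix (Fin n) (Fin n) ℝ := fun t => (1 - t) • Q0 + t • act z.1 Q0
  have hqc : Continuous q := by fun_prop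
  have hq_pd : ∀ t ∈ Set.Icc (0 : ℝ) 1, PD (q t) := fun t ht =>
    hQ0p.line (hQ0p.actU z) ht.1 ht.2
  have hq_inv : ∀ t, ∀ g, act (ρ g).1 (q t) = q t := by
    intro t g
    show act (ρ g).1 ((1 - t) • Q0 + t • act z.1 Q0) = _
    rw [act_add, act_smul, act_smul, hQ0i, hinv z hz Q0 hQ0i]
  let O : GZ n → Set ℝ := fun h => {t | ∃ σ ∈ R0, Red n (act (b σ * h).1 (q t))}
  have hO : ∀ h, IsOpen (O h) := by
    intro h
    have : O h = ⋃ σ ∈ R0, {t | Red n (act (b σ * h).1 (q t))} := by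
      ext t; simp [O]
    rw [this]
    refine isOpen_biUnion fun σ _ => ?_
    have hc : Continuous (fun t => act (b σ * h).1 (q t)) := by
      unfold act
      exact (continuous_const.matrix_mul hqc).matrix_mul continuous_const
    exact (isOpen_red n).preimage hc
  have hOF : ∀ h ∈ Γ, ∀ t ∈ Set.Icc (0 : ℝ) 1, (t ∈ O h ↔ act h.1 (q t) ∈ F) := by
    intro h hh t ht
    constructor
    · rintro ⟨σ, hσ, hr⟩
      refine ⟨(hq_pd t ht).actU h, hinv h hh _ (hq_inv t), σ, hσ, ?_⟩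
      rwa [← act_mul, ← Units.val_mul]
    · rintro ⟨_, _, σ, hσ, hr⟩
      refine ⟨σ, hσ, ?_⟩
      rwa [← act_mul, ← Units.val_mul] at hr
  let U : Set ℝ := ⋃ h ∈ (H : Set (GZ n)), O h
  let V : Set ℝ := ⋃ h ∈ {h : GZ n | h ∈ Γ ∧ h ∉ H}, O h
  have hU : IsOpen U := isOpen_biUnion fun h _ => hO h
  have hV : IsOpen V := isOpen_biUnion fun h _ => hO h
  have hUV : Set.Icc (0 : ℝ) 1 ⊆ U ∪ V := by
    intro t ht
    obtain ⟨w, hw, hwF⟩ := hcov (q t) (hq_pd t ht) (hq_inv t)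
    have := (hOF w hw t ht).mpr hwF
    by_cases hwH : w ∈ H
    · left; exact Set.mem_biUnion (x := w) hwH this
    · right; exact Set.mem_biUnion (x := w) ⟨hw, hwH⟩ this
  have hdis : Set.Icc (0 : ℝ) 1 ∩ (U ∩ V) = ∅ := by
    rw [Set.eq_empty_iff_forall_notMem]
    rintro t ⟨ht, htU, htV⟩
    simp only [U, V, Set.mem_iUnion] at htU htV
    obtain ⟨h, hh, h1⟩ := htU
    obtain ⟨h', ⟨hh'Γ, hh'⟩, h2⟩ := htV
    have e1 := (hOF h (hHle hh) t ht).mp h1
    have e2 := (hOF h' hh'Γ t ht).mp h2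
    have hmem : h' * h⁻¹ ∈ Sg := by
      refine ⟨Γ.mul_mem hh'Γ (Γ.inv_mem (hHle hh)), _, e1, ?_⟩
      rw [← act_mul, ← Units.val_mul, inv_mul_cancel_right]
      exact e2
    have : h' * h⁻¹ ∈ H := Subgroup.subset_closure hmem
    exact hh' (by simpa using H.mul_mem this hh)
  rcases (isPreconnected_iff_subset_of_disjoint.mp (isPreconnected_Icc (a := (0 : ℝ)) (b := 1)))
    U V hU hV hUV hdis with hs | hs
  · have h1 := hs (Set.right_mem_Icc.mpr zero_le_one)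
    simp only [U, Set.mem_iUnion] at h1
    obtain ⟨h, hh, h1⟩ := h1
    have e1 := (hOF h (hHle hh) 1 (Set.right_mem_Icc.mpr zero_le_one)).mp h1
    have hq1 : q 1 = act z.1 Q0 := by simp [q]
    rw [hq1, ← act_mul, ← Units.val_mul] at e1
    have hmem : h * z ∈ Sg := ⟨Γ.mul_mem (hHle hh) hz, Q0, hQ0, e1⟩
    have h3 : h * z ∈ H := Subgroup.subset_closure hmem
    have := H.mul_mem (H.inv_mem hh) h3
    simpa using this
  · exfalso
    have h0 : (0 : ℝ) ∈ Set.Icc (0 : ℝ) 1 := Set.left_mem_Icc.mpr zero_le_one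
    have h1 : (0 : ℝ) ∈ U := by
      refine Set.mem_biUnion (x := (1 : GZ n)) H.one_mem ?_
      rw [hOF 1 Γ.one_mem 0 h0]
      have hq0 : q 0 = Q0 := by simp [q]
      rw [hq0, Units.val_one, act_one]
      exact hQ0
    have : (0 : ℝ) ∈ Set.Icc (0 : ℝ) 1 ∩ (U ∩ V) := ⟨h0, h1, hs h0⟩
    rw [hdis] at this
    exact this

end Reduction
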